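import Pool.Agent.H652Z.Pal.Defs

/-!
A word generated by class P morphisms is covered by palindromes of length at least two and of
bounded length.
-/

namespace Pool.Agent.H652Z.Pal

variable {A B C : Type}

@[simp] theorem ap_nil (f : B → List A) : ap f [] = [] := rfl

@[simp] theorem ap_cons (f : B → List A) (b : B) (w : List B) :
    ap f (b :: w) = f b ++ ap f w := by simp [ap]

@[simp] theorem ap_append (f : B → List A) (w w' : List B) :
    ap f (w ++ w') = ap f w ++ ap f w' := by simp [ap]

theorem ap_comp (g : B → List A) (f : C → List B) (w : List C) :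
    ap (fun c => ap g (f c)) w = ap g (ap f w) := by
  induction w with
  | nil => rfl
  | cons c w ih => simp [ih]

theorem ap_infix (f : B → List A) {w w' : List B} (h : w <:+: w') : ap f w <:+: ap f w' := by
  obtain ⟨s, t, rfl⟩ := h
  exact ⟨ap f s, ap f t, by simp⟩

theorem ap_prefix (f : B → List A) {w w' : List B} (h : w <+: w') : ap f w <+: ap f w' := by
  obtain ⟨t, rfl⟩ := h
  exact ⟨ap f t, by simp⟩

theorem length_le_ap (f : B → List A) (h : ∀ b, 1 ≤ (f b).length) (w : List B) :
    w.length ≤ (ap f w).length := by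
  induction w with
  | nil => simp
  | cons c w ih =>
    have := h c
    simp only [ap_cons, List.length_cons, List.length_append]
    omega

theorem le_ap_of_mem (f : B → List A) {c : B} {w : List B} (h : c ∈ w) :
    (f c).length ≤ (ap f w).length := by
  obtain ⟨s, t, rfl⟩ := List.append_of_mem h
  simp only [ap_append, ap_cons, List.length_append]
  omega

/-- the `k`-th power of a morphism -/
def pw (φ : B → List B) (k : ℕ) : B → List B := fun b => (ap φ)^[k] [b]

theorem ap_pw (φ : B → List B) (k : ℕ) (w : List B) : ap (pw φ k) w = (ap φ)^[k] w := by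
  induction k generalizing w with
  | zero =>
    induction w with
    | nil => rfl
    | cons c w ih => simpa [pw] using ih
  | succ k ih =>
    have : pw φ (k + 1) = fun b => ap φ (pw φ k b) := by
      funext b
      simp [pw, Function.iterate_succ_apply']
    rw [this, ap_comp, ih, Function.iterate_succ_apply']

theorem pw_succ (φ : B → List B) (k : ℕ) : pw φ (k + 1) = fun b => ap φ (pw φ k b) := by
  funext b
  simp [pw, Function.iterate_succ_apply']

/-- one-sided conjugacy -/
def RConj (F F' : B → List A) (w : List A) : Prop := ∀ a, F a ++ w = w ++ F' a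

theorem RConj.word {F F' : B → List A} {w : List A} (h : RConj F F' w) (z : List B) :
    ap F z ++ w = w ++ ap F' z := by
  induction z with
  | nil => simp
  | cons c z ih => rw [ap_cons, ap_cons, List.append_assoc, ih, ← List.append_assoc, h c,
      List.append_assoc]

theorem RConj.left {f f' : C → List B} {w : List B} (h : RConj f f' w) (g : B → List A) :
    RConj (fun c => ap g (f c)) (fun c => ap g (f' c)) (ap g w) := by
  intro c
  rw [← ap_append, h c, ap_append]

theorem RConj.right {g g' : B → List A} {w : List A} (h : RConj g g' w) (f : C → List B) :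
    RConj (fun c => ap g (f c)) (fun c => ap g' (f c)) w := fun c => h.word (f c)

theorem RConj.trans {F F' F'' : B → List A} {w w' : List A} (h : RConj F F' w)
    (h' : RConj F' F'' w') : RConj F F'' (w ++ w') := by
  intro a
  rw [← List.append_assoc, h a, List.append_assoc, h' a, List.append_assoc]

theorem RConj.pw {φ φ' : B → List B} {w : List B} (h : RConj φ φ' w) (k : ℕ) :
    ∃ w', RConj (pw φ k) (pw φ' k) w' := by
  induction k with
  | zero => exact ⟨[], fun a => by simp [Pal.pw]⟩
  | succ k ih =>
    obtain ⟨w', hw'⟩ := ih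
    rw [pw_succ, pw_succ]
    exact ⟨_, (hw'.left φ).trans (h.right _)⟩

theorem RConj.length {F F' : B → List A} {w : List A} (h : RConj F F' w) (b : B) :
    (F b).length = (F' b).length := by
  have := congrArg List.length (h b)
  simp only [List.length_append] at this
  omega

theorem Conjugate.length {F F' : B → List A} (h : Conjugate F F') (b : B) :
    (F b).length = (F' b).length := by
  obtain ⟨w, h | h⟩ := h
  · exact RConj.length h b
  · exact (RConj.length h b).symm

theorem Conjugate.left {f f' : C → List B} (h : Conjugate f f') (g : B → List A) :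
    Conjugate (fun c => ap g (f c)) (fun c => ap g (f' c)) := by
  obtain ⟨w, h | h⟩ := h
  · exact ⟨_, Or.inl (RConj.left h g)⟩
  · exact ⟨_, Or.inr (RConj.left h g)⟩

theorem Conjugate.right {g g' : B → List A} (h : Conjugate g g') (f : C → List B) :
    Conjugate (fun c => ap g (f c)) (fun c => ap g' (f c)) := by
  obtain ⟨w, h | h⟩ := h
  · exact ⟨_, Or.inl (RConj.right h f)⟩
  · exact ⟨_, Or.inr (RConj.right h f)⟩

theorem Conjugate.pw {φ φ' : B → List B} (h : Conjugate φ φ') (k : ℕ) :
    Conjugate (pw φ k) (pw φ' k) := by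
  obtain ⟨w, h | h⟩ := h
  · obtain ⟨w', hw'⟩ := RConj.pw h k
    exact ⟨w', Or.inl hw'⟩
  · obtain ⟨w', hw'⟩ := RConj.pw h k
    exact ⟨w', Or.inr hw'⟩

theorem Conjugate.factor {F F' : B → List A} (h : Conjugate F F') (b0 : B)
    (h1 : ∀ b, 1 ≤ (F' b).length) (z : List B) : ∃ z', ap F z <:+: ap F' z' := by
  obtain ⟨w, h | h⟩ := h
  · have h : RConj F F' w := h
    have hl : w.length ≤ (ap F' (List.replicate w.length b0)).length := by
      simpa using length_le_ap F' h1 (List.replicate w.length b0)
    have hs : w <:+ ap F' (List.replicate w.length b0) := by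
      refine List.suffix_of_suffix_length_le (l₃ := w ++ ap F' (List.replicate w.length b0))
        ?_ (List.suffix_append _ _) hl
      rw [← h.word]
      exact List.suffix_append _ _
    obtain ⟨s, hs⟩ := hs
    refine ⟨List.replicate w.length b0 ++ z, s, w, ?_⟩
    rw [ap_append, ← hs, List.append_assoc, h.word, List.append_assoc]
  · have h : RConj F' F w := h
    have hl : w.length ≤ (ap F' (List.replicate w.length b0)).length := by
      simpa using length_le_ap F' h1 (List.replicate w.length b0)
    have hs : w <+: ap F' (List.replicate w.length b0) := by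
      refine List.prefix_of_prefix_length_le (l₃ := ap F' (List.replicate w.length b0) ++ w)
        ?_ (List.prefix_append _ _) hl
      rw [h.word]
      exact List.prefix_append _ _
    obtain ⟨s, hs⟩ := hs
    refine ⟨z ++ List.replicate w.length b0, w, s, ?_⟩
    rw [ap_append, ← hs, ← h.word, List.append_assoc]

/-- a morphism all of whose letter images become palindromes when `P` is appended -/
def PalPair (G : B → List A) (P : List A) : Prop :=
  P.reverse = P ∧ ∀ b, (G b ++ P).reverse = G b ++ P

theorem PalPair.word {G : B → List A} {P : List A} (h : PalPair G P) (w : List B) :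
    ap G w ++ P = P ++ (ap G w.reverse).reverse := by
  induction w with
  | nil => simp
  | cons c w ih =>
    have h2 := h.2 c
    rw [List.reverse_append, h.1] at h2
    rw [ap_cons, List.append_assoc, ih, ← List.append_assoc, ← h2]
    simp

theorem PalPair.pal {G : B → List A} {P : List A} (h : PalPair G P) {w : List B}
    (hw : w.reverse = w) : (ap G w ++ P).reverse = ap G w ++ P := by
  conv_rhs => rw [h.word, hw]
  rw [List.reverse_append, h.1]

theorem PalPair.comp {g : B → List A} {p : List A} {f : C → List B} {q : List B}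
    (hg : PalPair g p) (hf : PalPair f q) : PalPair (fun c => ap g (f c)) (ap g q ++ p) := by
  refine ⟨hg.pal hf.1, fun c => ?_⟩
  have := hg.pal (hf.2 c)
  rwa [ap_append, List.append_assoc] at this

theorem PalPair.pw {φ : B → List B} {p : List B} (h : PalPair φ p) (k : ℕ) :
    ∃ q, PalPair (pw φ k) q := by
  induction k with
  | zero => exact ⟨[], rfl, fun b => by simp [Pal.pw]⟩
  | succ k ih =>
    obtain ⟨q, hq⟩ := ih
    rw [pw_succ]
    exact ⟨_, h.comp hq⟩

theorem ClassP.palPair {ψ : B → List A} (h : ClassP ψ) : ∃ p, PalPair ψ p := by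
  obtain ⟨p, hp, h⟩ := h
  exact ⟨p, hp, fun b => (h b).2⟩

theorem PalPair.cover {G : B → List A} {P : List A} (h : PalPair G P) (K : ℕ)
    (h2 : ∀ b, 2 ≤ (G b).length) (hK : ∀ b, (G b).length ≤ K) (z : List B) (T : ℕ)
    (hT : T + K + P.length < (ap G z).length) :
    ∃ s l, s ≤ T ∧ T < s + l ∧ 2 ≤ l ∧ l ≤ K + P.length ∧
      ∀ i < l, (ap G z)[s + i]? = (ap G z)[s + l - 1 - i]? := by
  induction z generalizing T with
  | nil => simp at hT
  | cons b z ih =>
    have hb := hK b
    have hb2 := h2 b
    rw [ap_cons, List.length_append] at hT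
    by_cases hlt : T < (G b).length
    · have hP : P <+: ap G z := by
        refine List.prefix_of_prefix_length_le (l₃ := ap G z ++ P) ?_ (List.prefix_append _ _)
          (by omega)
        rw [h.word]
        exact List.prefix_append _ _
      obtain ⟨r, hr⟩ := hP
      refine ⟨0, (G b ++ P).length, Nat.zero_le _, ?_, ?_, ?_, ?_⟩
      · simp only [List.length_append]; omega
      · simp only [List.length_append]; omega
      · simp only [List.length_append]; omega
      · intro i hi
        rw [ap_cons, ← hr, ← List.append_assoc, zero_add, zero_add,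
          List.getElem?_append_left hi,
          List.getElem?_append_left (l₁ := G b ++ P) (l₂ := r) (by omega)]
        conv_lhs => rw [← h.2 b]
        rw [List.getElem?_reverse hi]
    · obtain ⟨s, l, h1, h3, h4, h5, h6⟩ := ih (T - (G b).length) (by omega)
      refine ⟨s + (G b).length, l, by omega, by omega, h4, h5, fun i hi => ?_⟩
      rw [ap_cons, List.getElem?_append_right (by omega), List.getElem?_append_right (by omega)]
      have e1 : s + (G b).length + i - (G b).length = s + i := by omega
      have e2 : s + (G b).length + l - 1 - i - (G b).length = s + l - 1 - i := by omega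
      rw [e1, e2]
      exact h6 i hi

theorem pref_prefix (u : ℕ → A) {n m : ℕ} (h : n ≤ m) : pref u n <+: pref u m := by
  obtain ⟨k, rfl⟩ := Nat.exists_eq_add_of_le h
  unfold pref
  rw [List.range_add, List.map_append]
  exact List.prefix_append _ _

theorem IsFixedPoint.prefix_iter {φ : B → List B} {v : ℕ → B} (h : IsFixedPoint φ v) (j n : ℕ) :
    ∃ m, pref v n <+: (ap φ)^[j] (pref v m) := by
  induction j generalizing n with
  | zero => exact ⟨n, List.prefix_refl _⟩
  | succ j ih =>
    obtain ⟨n', hn'⟩ := h.2 n
    obtain ⟨m, hm⟩ := ih n'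
    refine ⟨m, ?_⟩
    rw [Function.iterate_succ_apply']
    refine List.IsPrefix.trans ?_ (ap_prefix φ hm)
    rw [h.1 n']
    exact pref_prefix v hn'

/-- the structure that class P generation forces -/
theorem exists_palPair {φ : B → List B} {ψ : B → List A} {v : ℕ → B} (hp : IsPrimitive φ)
    (hφ : ConjClassP φ) (hψ : ConjClassP ψ) (hv : IsFixedPoint φ v) (c : B) (hc : ψ c ≠ []) :
    ∃ (G : B → List A) (P : List A), PalPair G P ∧ (∀ b, 2 ≤ (G b).length) ∧
      ∀ w ∈ imageLanguage ψ v, ∃ z, w <:+: ap G z := by
  have hc1 : 1 ≤ (ψ c).length := List.length_pos_iff.2 hc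
  obtain ⟨ψ', hψ', hcψ⟩ := hψ
  obtain ⟨p, hp'⟩ := hψ'.palPair
  have key : ∀ (f f' : B → List B) (q : List B), Conjugate f f' → PalPair f' q →
      (∀ b, 2 ≤ (ap ψ (f b)).length) → (∀ n, ∃ z, pref v n <:+: ap f z) →
      ∃ (G : B → List A) (P : List A), PalPair G P ∧ (∀ b, 2 ≤ (G b).length) ∧
        ∀ w ∈ imageLanguage ψ v, ∃ z, w <:+: ap G z := by
    intro f f' q hff hq hl hz
    have c1 := hff.left ψ
    have c2 := hcψ.right f'
    have l1 : ∀ b, 2 ≤ (ap ψ (f' b)).length := fun b => (c1.length b) ▸ hl b
    have l2 : ∀ b, 2 ≤ (ap ψ' (f' b)).length := fun b => (c2.length b) ▸ l1 b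
    refine ⟨_, _, hp'.comp hq, l2, ?_⟩
    rintro w ⟨n, hn⟩
    obtain ⟨z, hz⟩ := hz n
    obtain ⟨z1, hz1⟩ := c1.factor c (fun b => by have := l1 b; omega) z
    obtain ⟨z2, hz2⟩ := c2.factor c (fun b => by have := l2 b; omega) z1
    refine ⟨z2, hn.trans ((ap_infix ψ hz).trans ?_)⟩
    rw [← ap_comp]
    exact hz1.trans hz2
  rcases subsingleton_or_nontrivial B with hB | hB
  · refine key (fun b => [b, b]) (fun b => [b, b]) [] ⟨[], Or.inl (by simp)⟩
      ⟨rfl, fun b => by simp⟩ ?_ ?_
    · intro b
      obtain rfl : b = c := Subsingleton.elim _ _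
      simp only [ap_cons, ap_nil, List.length_append]
      omega
    · intro n
      refine ⟨pref v n, ?_⟩
      have e : ∀ w : List B, w = List.replicate w.length c := fun w =>
        List.eq_replicate_iff.2 ⟨rfl, fun b _ => Subsingleton.elim _ _⟩
      have hl : (pref v n).length ≤ (ap (fun b => [b, b]) (pref v n)).length :=
        length_le_ap _ (by simp) _
      rw [e (pref v n), e (ap _ _)]
      refine List.IsPrefix.isInfix ?_
      rw [List.prefix_replicate_iff]
      refine ⟨?_, by simp⟩
      rw [← e (pref v n)]
      simpa using hl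
  · obtain ⟨k, hk⟩ := hp
    obtain ⟨φ', hφ', hcφ⟩ := hφ
    obtain ⟨q0, hq0⟩ := hφ'.palPair
    obtain ⟨q, hq⟩ := hq0.pw (k + k)
    refine key (pw φ (k + k)) (pw φ' (k + k)) q (hcφ.pw _) hq ?_ ?_
    · intro b
      have e : ap ψ (pw φ (k + k) b) = ap (fun d => ap ψ (pw φ k d)) (pw φ k b) := by
        rw [ap_comp, ap_pw]
        simp only [pw, Function.iterate_add_apply]
      rw [e]
      refine le_trans ?_ (length_le_ap _ (fun d => hc1.trans (le_ap_of_mem ψ (hk d c))) _)
      obtain ⟨x, y, hxy⟩ := exists_pair_ne B
      have hx := hk b x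
      have hy := hk b y
      change 2 ≤ ((ap φ)^[k] [b]).length
      generalize (ap φ)^[k] [b] = l at hx hy
      match l, hx, hy with
      | [], hx, _ => simp at hx
      | [a], hx, hy =>
        simp only [List.mem_singleton] at hx hy
        exact absurd (hx.trans hy.symm) hxy
      | _ :: _ :: _, _, _ => simp
    · intro n
      obtain ⟨m, hm⟩ := hv.prefix_iter (k + k) n
      exact ⟨pref v m, by rw [ap_pw]; exact hm.isInfix⟩

/-- covering of an infinite word whose language is generated by class P morphisms -/
theorem covered [Finite B] {φ : B → List B} {ψ : B → List A} {v : ℕ → B} {u : ℕ → A}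
    (hp : IsPrimitive φ) (hφ : ConjClassP φ) (hψ : ConjClassP ψ) (hv : IsFixedPoint φ v)
    (hL : imageLanguage ψ v = language u) :
    ∃ N, ∀ T, N ≤ T → ∃ s l, s ≤ T ∧ T < s + l ∧ 2 ≤ l ∧ l ≤ N ∧
      ∀ i < l, u (s + i) = u (s + l - 1 - i) := by
  have hc : ∃ c, ψ c ≠ [] := by
    by_contra hcon
    push Not at hcon
    have h1 : pref u 1 ∈ imageLanguage ψ v := by
      rw [hL]; exact ⟨1, List.infix_refl _⟩
    obtain ⟨n, hn⟩ := h1
    have : ap ψ (pref v n) = [] := by simp [ap, hcon]
    rw [this] at hn
    simp [pref] at hn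
  obtain ⟨c, hc⟩ := hc
  obtain ⟨G, P, hG, h2, hz⟩ := exists_palPair hp hφ hψ hv c hc
  obtain ⟨K, hK⟩ := (Set.finite_range fun b => (G b).length).bddAbove
  have hK' : ∀ b, (G b).length ≤ K := fun b => hK ⟨b, rfl⟩
  refine ⟨K + P.length, fun T _ => ?_⟩
  have h1 : pref u (T + K + P.length + 1) ∈ imageLanguage ψ v := by
    rw [hL]; exact ⟨_, List.infix_refl _⟩
  obtain ⟨z, x, x', hx⟩ := hz _ h1
  have hlen : (pref u (T + K + P.length + 1)).length = T + K + P.length + 1 := by simp [pref]
  have hget : ∀ j < T + K + P.length + 1, (ap G z)[x.length + j]? = some (u j) := by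
    intro j hj
    rw [← hx, List.append_assoc, List.getElem?_append_right (by omega),
      List.getElem?_append_left (by omega)]
    simp [pref, hj]
  obtain ⟨s, l, a1, a2, a3, a4, a5⟩ := hG.cover K h2 hK' z (x.length + T) (by
    rw [← hx]
    simp only [List.length_append, hlen]
    omega)
  refine ⟨s - x.length, l, by omega, by omega, a3, a4, fun i hi => ?_⟩
  have := a5 i hi
  have e1 : s + i = x.length + (s - x.length + i) := by omega
  have e2 : s + l - 1 - i = x.length + (s - x.length + l - 1 - i) := by omega
  rw [e2, e1, hget _ (by omega), hget _ (by omega)] at this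
  exact Option.some.inj this

end Pool.Agent.H652Z.Pal
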