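import Mathlib

/-!
# Palindromic morphic words and class P: the notions of the problem

Words over an alphabet are lists; a morphism `B* → A*` is given by the images of the letters.
-/

namespace Pool.Agent.H652Z.Pal

/-- image of a finite word under the morphism with letter images `f` -/
def ap {B A : Type} (f : B → List A) (w : List B) : List A := w.flatMap f

/-- the first `n` letters of an infinite word -/
def pref {A : Type} (u : ℕ → A) (n : ℕ) : List A := (List.range n).map u

/-- the set of finite factors of an infinite word -/
def language {A : Type} (u : ℕ → A) : Set (List A) := {w | ∃ n, w <:+: pref u n}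

/-- the set of finite factors of the image `ψ(v)` of the infinite word `v` -/
def imageLanguage {B A : Type} (ψ : B → List A) (v : ℕ → B) : Set (List A) :=
  {w | ∃ n, w <:+: ap ψ (pref v n)}

/-- an infinite word is palindromic if infinitely many palindromes occur in it -/
def IsPalindromic {A : Type} (u : ℕ → A) : Prop := {w | w ∈ language u ∧ w.reverse = w}.Infinite

/-- `φ(u) = u`: the image of every prefix of `u` is a prefix of `u`, and these images are
arbitrarily long -/
def IsFixedPoint {A : Type} (φ : A → List A) (u : ℕ → A) : Prop :=
  (∀ n, ap φ (pref u n) = pref u (ap φ (pref u n)).length) ∧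
    ∀ m, ∃ n, m ≤ (ap φ (pref u n)).length

/-- primitive morphism: for some `k` every letter occurs in `φ^k(a)` for every letter `a` -/
def IsPrimitive {A : Type} (φ : A → List A) : Prop := ∃ k : ℕ, ∀ a b, b ∈ (ap φ)^[k] [a]

/-- class P: a palindrome `p` is a prefix of every `ψ(a)` and every `ψ(a) p` is a palindrome -/
def ClassP {B A : Type} (ψ : B → List A) : Prop :=
  ∃ p : List A, p.reverse = p ∧ ∀ a, p <+: ψ a ∧ (ψ a ++ p).reverse = ψ a ++ p

/-- conjugate morphisms -/
def Conjugate {B A : Type} (φ ψ : B → List A) : Prop :=
  ∃ w : List A, (∀ a, φ a ++ w = w ++ ψ a) ∨ (∀ a, ψ a ++ w = w ++ φ a)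

/-- conjugate to a morphism in class P -/
def ConjClassP {B A : Type} (ψ : B → List A) : Prop :=
  ∃ χ : B → List A, ClassP χ ∧ Conjugate ψ χ

end Pool.Agent.H652Z.Pal
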