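import Pool.Agent.H652Z.Pal.Cover

/-!
The example: `yy` is the fixed point of a binary morphism of length 20, and `uu` is its image under
`true ↦ 012345`, `false ↦ 543210`; `uu` is fixed by a primitive morphism on six letters.
-/

namespace Pool.Agent.H652Z.Pal

/-- the binary morphism -/
def sigL : Bool → List Bool
  | true => [true, true, true, true, false, true, false, false, false, false,
      false, false, true, false, false, true, true, true, true, false]
  | false => [true, true, true, true, false, true, false, false, false, false,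
      true, false, false, false, false, true, true, false, true, true]

/-- letters of the images of the binary morphism -/
def sig (b : Bool) (j : ℕ) : Bool := (sigL b).getD j true

/-- the binary fixed point -/
def yy (n : ℕ) : Bool := if _h : n = 0 then true else sig (yy (n / 20)) (n % 20)
decreasing_by omega

theorem yy_zero : yy 0 = true := by rw [yy]; simp

theorem yy_eq (a j : ℕ) (hj : j < 20) : yy (20 * a + j) = sig (yy a) j := by
  by_cases h : 20 * a + j = 0
  · obtain rfl : a = 0 := by omega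
    obtain rfl : j = 0 := by omega
    rw [yy_zero]
    rfl
  · rw [yy, dif_neg h]
    have h1 : (20 * a + j) / 20 = a := by omega
    have h2 : (20 * a + j) % 20 = j := by omega
    rw [h1, h2]

/-- the coding -/
def muL : Bool → List (Fin 6)
  | true => [0, 1, 2, 3, 4, 5]
  | false => [5, 4, 3, 2, 1, 0]

/-- letters of the coding -/
def mu (b : Bool) (j : ℕ) : Fin 6 := (muL b).getD j 0

/-- the word -/
def uu (n : ℕ) : Fin 6 := mu (yy (n / 6)) (n % 6)

theorem uu_eq (a j : ℕ) (hj : j < 6) : uu (6 * a + j) = mu (yy a) j := by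
  have h1 : (6 * a + j) / 6 = a := by omega
  have h2 : (6 * a + j) % 6 = j := by omega
  rw [uu, h1, h2]

/-- the pieces -/
def piece : Fin 6 → List Bool :=
  ![[true, true], [true, true, false], [true, false, false, false, false],
    [false, false], [true, false, false], [true, true, true, true, false]]

/-- the primitive morphism fixing `uu` -/
def phi0 : Fin 6 → List (Fin 6) := fun a => ap muL (piece a)

theorem phi0_primitive : IsPrimitive phi0 := ⟨1, by decide⟩

theorem pref_add {A : Type} (u : ℕ → A) (n k : ℕ) :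
    pref u (n + k) = pref u n ++ (List.range k).map (fun j => u (n + j)) := by
  unfold pref
  rw [List.range_add, List.map_append, List.map_map]
  rfl

theorem pref_yy (a : ℕ) : pref yy (20 * a) = ap sigL (pref yy a) := by
  induction a with
  | zero => rfl
  | succ a ih =>
    rw [Nat.mul_succ, pref_add, pref_add, ap_append, ih]
    congr 1
    have : (List.range 20).map (fun j => yy (20 * a + j)) =
        (List.range 20).map (fun j => sig (yy a) j) :=
      List.map_congr_left fun j hj => yy_eq a j (List.mem_range.1 hj)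
    rw [this]
    simp only [List.range_one, List.map_cons, List.map_nil, add_zero, ap_cons, ap_nil,
      List.append_nil]
    cases yy a <;> decide

theorem pref_uu (a : ℕ) : pref uu (6 * a) = ap muL (pref yy a) := by
  induction a with
  | zero => rfl
  | succ a ih =>
    rw [Nat.mul_succ, pref_add, pref_add, ap_append, ih]
    congr 1
    have : (List.range 6).map (fun j => uu (6 * a + j)) =
        (List.range 6).map (fun j => mu (yy a) j) :=
      List.map_congr_left fun j hj => uu_eq a j (List.mem_range.1 hj)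
    rw [this]
    simp only [List.range_one, List.map_cons, List.map_nil, add_zero, ap_cons, ap_nil,
      List.append_nil]
    cases yy a <;> decide

theorem phi0_pref (a : ℕ) : ap phi0 (pref uu (6 * a)) = pref uu (6 * (20 * a)) := by
  rw [pref_uu, pref_uu, pref_yy, ← ap_comp, ← ap_comp]
  congr 1
  funext b
  cases b <;> decide

theorem eq_pref_of_prefix {A : Type} (u : ℕ → A) {w : List A} {n : ℕ} (h : w <+: pref u n) :
    w = pref u w.length := by
  have hl : w.length ≤ n := by simpa [pref] using h.length_le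
  refine List.IsPrefix.eq_of_length
    (List.prefix_of_prefix_length_le h (pref_prefix u hl) (by simp [pref])) (by simp [pref])

theorem phi0_fixed : IsFixedPoint phi0 uu := by
  constructor
  · intro n
    refine eq_pref_of_prefix uu (n := 6 * (20 * n)) ?_
    rw [← phi0_pref]
    exact ap_prefix _ (pref_prefix uu (by omega))
  · intro m
    refine ⟨6 * m, ?_⟩
    rw [phi0_pref]
    simp only [pref, List.length_map, List.length_range]
    omega

/-- prefixes of `yy` that are antipalindromes -/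
def AP (l : ℕ) : Prop := ∀ i < l, yy (l - 1 - i) = !yy i

theorem AP.step {l : ℕ} (h : AP l) : AP (20 * l + 10) := by
  intro i hi
  obtain ⟨a, j, hj, rfl⟩ : ∃ a j, j < 20 ∧ i = 20 * a + j :=
    ⟨i / 20, i % 20, Nat.mod_lt _ (by norm_num), (Nat.div_add_mod i 20).symm⟩
  by_cases hj10 : j < 10
  · have e : 20 * l + 10 - 1 - (20 * a + j) = 20 * (l - a) + (9 - j) := by omega
    rw [e, yy_eq _ _ (by omega), yy_eq _ _ hj]
    have : ∀ b b' : Bool, ∀ j < 10, sig b (9 - j) = !sig b' j := by decide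
    exact this _ _ j hj10
  · have e : 20 * l + 10 - 1 - (20 * a + j) = 20 * (l - 1 - a) + (29 - j) := by omega
    rw [e, yy_eq _ _ (by omega), yy_eq _ _ hj, h a (by omega)]
    have : ∀ b : Bool, ∀ j < 20, ¬ j < 10 → sig (!b) (29 - j) = !sig b j := by decide
    exact this _ j hj hj10

theorem exists_AP (m : ℕ) : ∃ l, m ≤ l ∧ AP l := by
  induction m with
  | zero => exact ⟨0, le_rfl, fun i hi => absurd hi (Nat.not_lt_zero _)⟩
  | succ m ih =>
    obtain ⟨l, hl, h⟩ := ih
    exact ⟨_, by omega, h.step⟩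

theorem AP.pal {l : ℕ} (h : AP l) : (pref uu (6 * l)).reverse = pref uu (6 * l) := by
  refine List.ext_getElem (by simp) fun i h1 h2 => ?_
  have hi : i < 6 * l := by simpa [pref] using h2
  rw [List.getElem_reverse]
  simp only [pref, List.getElem_map, List.getElem_range, List.length_map, List.length_range]
  obtain ⟨a, j, hj, rfl⟩ : ∃ a j, j < 6 ∧ i = 6 * a + j :=
    ⟨i / 6, i % 6, Nat.mod_lt _ (by norm_num), (Nat.div_add_mod i 6).symm⟩
  have e : 6 * l - 1 - (6 * a + j) = 6 * (l - 1 - a) + (5 - j) := by omega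
  rw [e, uu_eq _ _ (by omega), uu_eq _ _ hj, h a (by omega)]
  have : ∀ b : Bool, ∀ j < 6, mu (!b) (5 - j) = mu b j := by decide
  exact this _ j hj

theorem uu_palindromic : IsPalindromic uu := by
  refine Set.Infinite.of_image List.length (Set.infinite_of_not_bddAbove ?_)
  rintro ⟨m, hm⟩
  obtain ⟨l, hl, h⟩ := exists_AP (m + 1)
  have := hm ⟨pref uu (6 * l), ⟨⟨_, List.infix_refl _⟩, h.pal⟩, rfl⟩
  simp only [pref, List.length_map, List.length_range] at this
  omega

/-- an antipalindrome of radius `r` centred at the gap before place `g` -/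
def Anti (g r : ℕ) : Prop := r ≤ g ∧ ∀ i < r, yy (g + i) = !yy (g - 1 - i)

/-- three consecutive blocks -/
def Y3 (b0 b1 b2 : Bool) (k : ℕ) : Bool :=
  if k < 20 then sig b0 k else if k < 40 then sig b1 (k - 20) else sig b2 (k - 40)

theorem yy_Y3 (a k : ℕ) (hk : k < 60) :
    yy (20 * a + k) = Y3 (yy a) (yy (a + 1)) (yy (a + 2)) k := by
  unfold Y3
  split_ifs with h1 h2
  · exact yy_eq a k h1
  · have : 20 * a + k = 20 * (a + 1) + (k - 20) := by omega
    rw [this, yy_eq _ _ (by omega)]
  · have : 20 * a + k = 20 * (a + 2) + (k - 40) := by omega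
    rw [this, yy_eq _ _ (by omega)]

theorem Anti.mod_of_three {g r : ℕ} (h : Anti g r) (hr : 3 ≤ r) : g % 20 = 5 := by
  obtain ⟨a, k, hk3, hk, rfl⟩ : ∃ a k, 3 ≤ k ∧ k < 40 ∧ g = 20 * a + k := by
    have := h.1
    by_cases h20 : g < 20
    · exact ⟨0, g, by omega, by omega, by omega⟩
    · exact ⟨g / 20 - 1, g % 20 + 20, by omega, by omega, by omega⟩
  have key : ∀ b0 b1 b2 : Bool, ∀ k < 40, 3 ≤ k →
      (∀ i < 3, Y3 b0 b1 b2 (k + i) = !Y3 b0 b1 b2 (k - 1 - i)) → k % 20 = 5 := by decide
  have := key (yy a) (yy (a + 1)) (yy (a + 2)) k hk hk3 (fun i hi => by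
    have h2 := h.2 i (by omega)
    have e1 : 20 * a + k + i = 20 * a + (k + i) := by omega
    have e2 : 20 * a + k - 1 - i = 20 * a + (k - 1 - i) := by omega
    rwa [e1, e2, yy_Y3 _ _ (by omega), yy_Y3 _ _ (by omega)] at h2)
  omega

theorem Anti.mod_of_cover {g r t : ℕ} (h : Anti g r) (ht : yy t = true)
    (c1 : g ≤ 20 * t + 17 + r) (c2 : 20 * t + 17 < g + r) : g % 20 = 5 := by
  by_cases hr : 3 ≤ r
  · exact h.mod_of_three hr
  · exfalso
    obtain ⟨k, hk1, hk2, rfl⟩ : ∃ k, 16 ≤ k ∧ k < 20 ∧ g = 20 * t + k :=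
      ⟨g - 20 * t, by omega, by omega, by omega⟩
    have key : ∀ b1 b2 : Bool, ∀ k < 20, 16 ≤ k → ∀ r < 3, k ≤ 17 + r → 17 < k + r →
        ¬ (∀ i < r, Y3 true b1 b2 (k + i) = !Y3 true b1 b2 (k - 1 - i)) := by
      intro b1 b2 k hk hk' r hr
      interval_cases k <;> interval_cases r <;> cases b1 <;> cases b2 <;> decide
    refine key (yy (t + 1)) (yy (t + 2)) k hk2 hk1 r (by omega) (by omega) (by omega)
      (fun i hi => ?_)
    have h2 := h.2 i hi
    have e1 : 20 * t + k + i = 20 * t + (k + i) := by omega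
    have e2 : 20 * t + k - 1 - i = 20 * t + (k - 1 - i) := by omega
    rwa [e1, e2, yy_Y3 _ _ (by omega), yy_Y3 _ _ (by omega), ht] at h2

theorem yy17 (a : ℕ) : yy (20 * a + 17) = yy a := by
  rw [yy_eq _ _ (by norm_num)]
  cases yy a <;> rfl

theorem yy12 (a : ℕ) : yy (20 * a + 12) = yy a := by
  rw [yy_eq _ _ (by norm_num)]
  cases yy a <;> rfl

/-- places not covered by short antipalindromes -/
theorem exists_uncovered (M : ℕ) : ∃ t, M ≤ t ∧ yy t = true ∧
    ∀ g r, r ≤ M → Anti g r → g ≤ t + r → t < g + r → False := by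
  induction M with
  | zero => exact ⟨0, le_rfl, yy_zero, fun g r hr _ h1 h2 => by omega⟩
  | succ M ih =>
    obtain ⟨t, hM, ht, h⟩ := ih
    refine ⟨20 * t + 17, by omega, by rw [yy17, ht], fun g r hr hA c1 c2 => ?_⟩
    have hg := hA.mod_of_cover ht c1 c2
    obtain ⟨n, rfl⟩ : ∃ n, g = 20 * n + 5 := ⟨g / 20, by omega⟩
    have hrg := hA.1
    by_cases htn : n ≤ t
    · refine h n (t - n + 1) (by omega) ⟨by omega, fun i hi => ?_⟩ (by omega) (by omega)
      have h2 := hA.2 (20 * i + 12) (by omega)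
      have e1 : 20 * n + 5 + (20 * i + 12) = 20 * (n + i) + 17 := by omega
      have e2 : 20 * n + 5 - 1 - (20 * i + 12) = 20 * (n - 1 - i) + 12 := by omega
      rwa [e1, e2, yy17, yy12] at h2
    · refine h n (n - t) (by omega) ⟨by omega, fun i hi => ?_⟩ (by omega) (by omega)
      have h2 := hA.2 (20 * i + 7) (by omega)
      have e1 : 20 * n + 5 + (20 * i + 7) = 20 * (n + i) + 12 := by omega
      have e2 : 20 * n + 5 - 1 - (20 * i + 7) = 20 * (n - 1 - i) + 17 := by omega
      rwa [e1, e2, yy17, yy12] at h2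

/-- two consecutive blocks of the coding -/
def U2 (b0 b1 : Bool) (k : ℕ) : Fin 6 := if k < 6 then mu b0 k else mu b1 (k - 6)

theorem uu_U2 (a k : ℕ) (hk : k < 12) : uu (6 * a + k) = U2 (yy a) (yy (a + 1)) k := by
  unfold U2
  split_ifs with h1
  · exact uu_eq a k h1
  · have : 6 * a + k = 6 * (a + 1) + (k - 6) := by omega
    rw [this, uu_eq _ _ (by omega)]

theorem uu_ne_two (c : ℕ) : uu c ≠ uu (c + 2) := by
  obtain ⟨a, k, hk, rfl⟩ : ∃ a k, k < 6 ∧ c = 6 * a + k :=
    ⟨c / 6, c % 6, Nat.mod_lt _ (by norm_num), (Nat.div_add_mod c 6).symm⟩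
  rw [add_assoc, uu_U2 _ _ (by omega), uu_U2 _ _ (by omega)]
  have key : ∀ b0 b1 : Bool, ∀ k < 6, U2 b0 b1 k ≠ U2 b0 b1 (k + 2) := by decide
  exact key _ _ k hk

theorem uu_eq_one (c : ℕ) (h : uu c = uu (c + 1)) : c % 6 = 5 := by
  obtain ⟨a, k, hk, rfl⟩ : ∃ a k, k < 6 ∧ c = 6 * a + k :=
    ⟨c / 6, c % 6, Nat.mod_lt _ (by norm_num), (Nat.div_add_mod c 6).symm⟩
  rw [add_assoc, uu_U2 _ _ (by omega), uu_U2 _ _ (by omega)] at h
  have key : ∀ b0 b1 : Bool, ∀ k < 6, U2 b0 b1 k = U2 b0 b1 (k + 1) → k = 5 := by decide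
  have := key _ _ k hk h
  omega

theorem uu_not_covered (N : ℕ) : ∃ T, N ≤ T ∧ ¬ ∃ s l, s ≤ T ∧ T < s + l ∧ 2 ≤ l ∧ l ≤ N ∧
    ∀ i < l, uu (s + i) = uu (s + l - 1 - i) := by
  obtain ⟨t, hN, -, h⟩ := exists_uncovered N
  refine ⟨6 * t, by omega, ?_⟩
  rintro ⟨s, l, h1, h2, h3, h4, h5⟩
  rcases Nat.even_or_odd' l with ⟨R, rfl | rfl⟩
  · have a1 := h5 (R - 1) (by omega)
    have e1 : s + 2 * R - 1 - (R - 1) = s + (R - 1) + 1 := by omega
    rw [e1] at a1
    have a2 := uu_eq_one _ a1
    obtain ⟨n, hn⟩ : ∃ n, s + R = 6 * n := ⟨(s + R) / 6, by omega⟩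
    refine h n ((R + 5) / 6) (by omega) ⟨by omega, fun i hi => ?_⟩ (by omega) (by omega)
    have a3 := h5 (R + 6 * i) (by omega)
    have e2 : s + (R + 6 * i) = 6 * (n + i) + 0 := by omega
    have e3 : s + 2 * R - 1 - (R + 6 * i) = 6 * (n - 1 - i) + 5 := by omega
    rw [e2, e3, uu_eq _ _ (by omega), uu_eq _ _ (by omega)] at a3
    have key : ∀ b b' : Bool, mu b 0 = mu b' 5 → b = !b' := by decide
    exact key _ _ a3
  · have a1 := h5 (R - 1) (by omega)
    have e1 : s + (2 * R + 1) - 1 - (R - 1) = s + (R - 1) + 2 := by omega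
    rw [e1] at a1
    exact uu_ne_two _ a1

theorem main : ∃ (φ₀ : Fin 6 → List (Fin 6)) (u : ℕ → Fin 6),
    IsPrimitive φ₀ ∧ IsFixedPoint φ₀ u ∧ IsPalindromic u ∧
    ∀ (B : Type) [Finite B] (φ : B → List B) (ψ : B → List (Fin 6)) (v : ℕ → B),
      IsPrimitive φ → ConjClassP φ → ConjClassP ψ → IsFixedPoint φ v →
        imageLanguage ψ v ≠ language u := by
  refine ⟨phi0, uu, phi0_primitive, phi0_fixed, uu_palindromic, ?_⟩
  intro B _ φ ψ v hp hφ hψ hv hL
  obtain ⟨N, hN⟩ := covered hp hφ hψ hv hL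
  obtain ⟨T, hT, h⟩ := uu_not_covered N
  exact h (hN T hT)

end Pool.Agent.H652Z.Pal
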